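import Pool.Agent.N988.EP.Stm

set_option autoImplicit false

/-! P8, EY: the mean of the first-passage time between the ends is bounded. -/

open MeasureTheory Set Filter
open scoped Topology
open Pool.Agent.N988.EA Pool.Agent.N988.EC Pool.Agent.N988.EP

namespace Pool.Agent.N391.EP

theorem coin_prob' (p : ℝ) (h0 : 0 ≤ p) (h1 : p ≤ 1) : IsProbabilityMeasure (coin p) := by
  constructor
  unfold coin
  simp only [Measure.coe_add, Measure.coe_smul, Pi.add_apply, Pi.smul_apply, measure_univ,
    smul_eq_mul, mul_one]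
  rw [← ENNReal.ofReal_add h0 (by linarith)]
  simp

theorem iid_prob' {α : Type} [MeasurableSpace α] (ν : Measure α) [IsProbabilityMeasure ν]
    (b n : ℕ) : IsProbabilityMeasure (iid ν b n) := by
  unfold iid
  infer_instance

/-- dyadic decomposition -/
theorem dyadic (m N : ℕ) (h : N ≤ 2 ^ m) :
    (N : ℝ) ≤ 1 + ∑ k ∈ Finset.range m, 2 ^ k * (if 2 ^ k < N then (1 : ℝ) else 0) := by
  induction m with
  | zero =>
    have : N ≤ 1 := by simpa using h
    simp only [Finset.range_zero, Finset.sum_empty, add_zero]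
    exact_mod_cast this
  | succ m ih =>
    rw [Finset.sum_range_succ]
    by_cases h1 : N ≤ 2 ^ m
    · have := ih h1
      have h2 : (0 : ℝ) ≤ 2 ^ m * (if 2 ^ m < N then (1 : ℝ) else 0) := by
        split_ifs <;> positivity
      linarith
    · push Not at h1
      have h2 : ∑ k ∈ Finset.range m, (2 : ℝ) ^ k * (if 2 ^ k < N then (1 : ℝ) else 0) =
          2 ^ m - 1 := by
        have h3 : ∑ k ∈ Finset.range m, (2 : ℝ) ^ k * (if 2 ^ k < N then (1 : ℝ) else 0) =
            ∑ k ∈ Finset.range m, (2 : ℝ) ^ k := by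
          refine Finset.sum_congr rfl fun k hk => ?_
          have h4 : 2 ^ k < N := lt_of_le_of_lt
            (Nat.pow_le_pow_right (by norm_num) (Finset.mem_range.mp hk).le) h1
          rw [if_pos h4, mul_one]
        rw [h3, geom_sum_eq (by norm_num)]
        norm_num
      rw [h2, if_pos h1, mul_one]
      have h5 : (N : ℝ) ≤ 2 ^ (m + 1) := by exact_mod_cast h
      rw [pow_succ] at h5
      linarith

theorem Y_le {b : ℕ} (hb : 1 ≤ b) : ∀ (n : ℕ) (w : Edge b n → Bool), Y n w ≤ 2 ^ n := by
  intro n
  induction n with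
  | zero =>
    intro w
    simp only [Y]
    split_ifs <;> simp
  | succ n ih =>
    intro w
    simp only [Y]
    have h := ciInf_le (OrderBot.bddBelow (Set.range fun i : Fin b =>
      Y n (sub w i false) + Y n (sub w i true))) (⟨0, hb⟩ : Fin b)
    have h1 := ih (sub w ⟨0, hb⟩ false)
    have h2 := ih (sub w ⟨0, hb⟩ true)
    rw [pow_succ]
    omega

/-- P8. -/
theorem t_EY (h1 : S_LAW) : S_EY := by
  intro b hb p q C hp0 hp1 hfix hq0 hq1 hq hu
  have hb1 : 1 ≤ b := by omega
  obtain ⟨l0, l1⟩ := h1 b hb1 p hp0.le hp1.le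
  have := coin_prob' (1 - p) (by linarith) (by linarith)
  have hprob : ∀ n, IsProbabilityMeasure (iid (coin (1 - p)) b n) := fun n => iid_prob' _ b n
  have hms : ∀ (n : ℕ) (A : Set (Edge b n → Bool)), MeasurableSet A := fun n A =>
    (Set.toFinite A).measurableSet
  -- step 1
  have s1 : ∀ n, (iid (coin (1 - p)) b n).real {w | Y n w = 0} = p := by
    intro n
    induction n with
    | zero => exact l0
    | succ n ih => rw [(l1 n).1, ih, hfix]
  have sle : ∀ n, (iid (coin (1 - p)) b n).real {w | Y n w ≤ 1} =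
      p + (iid (coin (1 - p)) b n).real {w | Y n w = 1} := by
    intro n
    have e : {w : Edge b n → Bool | Y n w ≤ 1} = {w | Y n w = 0} ∪ {w | Y n w = 1} := by
      ext w
      simp only [mem_ofPred_eq, mem_union]
      omega
    rw [e, measureReal_union _ (hms n _), s1 n]
    rw [Set.disjoint_left]
    intro w hw hw'
    simp only [mem_ofPred_eq] at hw hw'
    omega
  -- step 2
  have s2 : ∀ n, q ≤ (iid (coin (1 - p)) b n).real {w | Y n w = 1} := by
    intro n
    induction n with
    | zero =>
      have h2 := sle 0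
      have e : {w : Edge b 0 → Bool | Y 0 w ≤ 1} = Set.univ := by
        ext w
        simp only [mem_ofPred_eq, mem_univ, iff_true]
        exact Y_le hb1 0 w
      rw [e, probReal_univ] at h2
      linarith
    | succ n ih =>
      have h2 := sle n
      have h3 : (iid (coin (1 - p)) b n).real {w | Y n w ≤ 1} ≤ 1 := measureReal_le_one
      have h4 := hq _ ih (by linarith)
      have h5 := (l1 n).2.1
      rw [s1 n] at h5
      have h6 := sle (n + 1)
      linarith
  -- step 3
  have s3 : ∀ n, (iid (coin (1 - p)) b n).real {w | 1 < Y n w} ≤ 1 - p - q := by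
    intro n
    have e : {w : Edge b n → Bool | 1 < Y n w} = {w | Y n w ≤ 1}ᶜ := by
      ext w
      simp only [mem_ofPred_eq, mem_compl_iff]
      omega
    rw [e, probReal_compl_eq_one_sub (hms n _), sle n]
    linarith [s2 n]
  -- step 4
  set u : ℕ → ℝ := fun k => Nat.rec (1 - p - q) (fun _ x => (1 - (1 - x) ^ 2) ^ b) k with hu'
  have u0 : u 0 = 1 - p - q := rfl
  have us : ∀ k, u (k + 1) = (1 - (1 - u k) ^ 2) ^ b := fun k => rfl
  have ub : ∀ k, 0 ≤ u k ∧ u k ≤ 1 := by
    intro k
    induction k with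
    | zero => rw [u0]; constructor <;> linarith
    | succ k ih =>
      rw [us]
      have a1 : 0 ≤ 1 - (1 - u k) ^ 2 := by nlinarith [ih.1, ih.2]
      have a2 : 1 - (1 - u k) ^ 2 ≤ 1 := by nlinarith [sq_nonneg (1 - u k)]
      exact ⟨pow_nonneg a1 _, pow_le_one₀ a1 a2⟩
  have s4 : ∀ k n, (iid (coin (1 - p)) b n).real {w | 2 ^ k < Y n w} ≤ u k := by
    intro k
    induction k with
    | zero =>
      intro n
      rw [u0]
      simpa using s3 n
    | succ k ih =>
      intro n
      cases n with
      | zero =>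
        have e : {w : Edge b 0 → Bool | 2 ^ (k + 1) < Y 0 w} = ∅ := by
          ext w
          simp only [mem_ofPred_eq, mem_empty_iff_false, iff_false, not_lt]
          exact (Y_le hb1 0 w).trans (Nat.pow_le_pow_right (by norm_num) (by omega))
        rw [e, measureReal_empty]
        exact (ub (k + 1)).1
      | succ n =>
        have h2 := (l1 n).2.2 (2 ^ k)
        have e : 2 ^ (k + 1) = 2 * 2 ^ k := by rw [pow_succ]; ring
        rw [e]
        refine h2.trans ?_
        rw [us]
        set x := (iid (coin (1 - p)) b n).real {w | 2 ^ k < Y n w} with hx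
        have hx0 : 0 ≤ x := measureReal_nonneg
        have hx1 : x ≤ u k := ih n
        have hu1 := (ub k).2
        have a1 : 0 ≤ 1 - (1 - x) ^ 2 := by nlinarith
        have a2 : 1 - (1 - x) ^ 2 ≤ 1 - (1 - u k) ^ 2 := by nlinarith
        exact pow_le_pow_left₀ a1 a2 b
  have s5 := hu u (ub 0).1 le_rfl us
  -- step 5
  refine ⟨1 + C, fun n => ?_⟩
  have i1 : ∫ w, (Y n w : ℝ) ∂(iid (coin (1 - p)) b n) ≤
      ∫ w, (1 + ∑ k ∈ Finset.range n, 2 ^ k * (if 2 ^ k < Y n w then (1 : ℝ) else 0))
        ∂(iid (coin (1 - p)) b n) := by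
    apply integral_mono Integrable.of_finite Integrable.of_finite
    intro w
    exact dyadic n (Y n w) (Y_le hb1 n w)
  refine i1.trans ?_
  rw [integral_add Integrable.of_finite Integrable.of_finite, integral_const, probReal_univ,
    integral_finsetSum _ fun k _ => Integrable.of_finite]
  have i2 : ∀ k, ∫ w, (2 : ℝ) ^ k * (if 2 ^ k < Y n w then (1 : ℝ) else 0)
      ∂(iid (coin (1 - p)) b n) = 2 ^ k * (iid (coin (1 - p)) b n).real {w | 2 ^ k < Y n w} := by
    intro k
    rw [integral_const_mul]
    congr 1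
    rw [← integral_indicator_one (hms n _)]
    refine integral_congr_ae (Filter.Eventually.of_forall fun w => ?_)
    simp only [Set.indicator_apply, mem_ofPred_eq, Pi.one_apply]
  simp only [i2]
  have i3 : ∑ k ∈ Finset.range n, (2 : ℝ) ^ k * (iid (coin (1 - p)) b n).real {w | 2 ^ k < Y n w} ≤
      ∑ k ∈ Finset.range n, 2 ^ k * u k :=
    Finset.sum_le_sum fun k _ => mul_le_mul_of_nonneg_left (s4 k n) (by positivity)
  have i4 := s5 n
  simp only [smul_eq_mul, one_mul]
  linarith

end Pool.Agent.N391.EP
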