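import Pool.Agent.N604.MW.Stm12
import Pool.Agent.N570.KV_Part

/-!
Project AK (helper604), part KBLK (helper391): the moment of `GS` over a block.
-/

set_option autoImplicit false

namespace Pool.Agent.N391.AK

open Finset MeasureTheory Filter Pool.Agent.N604.MW

theorem qq_nonneg (t : ℝ) : 0 ≤ qq t := by
  unfold qq; split_ifs <;> positivity

theorem GS_nonneg (n k X : ℕ) (γ : Fin n → ℝ) : 0 ≤ GS n k X γ := by
  unfold GS; exact Finset.sum_nonneg fun x _ => (Real.exp_pos _).le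

theorem GS_le (n k X : ℕ) (γ : Fin n → ℝ) : GS n k X γ ≤ ((X : ℝ) + 1) ^ n := by
  classical
  have hcard : ((Fintype.piFinset (fun _ : Fin n => Finset.Icc X (2 * X))).card : ℝ)
      = ((X : ℝ) + 1) ^ n := by
    rw [Fintype.card_piFinset]
    simp only [Nat.card_Icc, Finset.prod_const, Finset.card_univ, Fintype.card_fin]
    have : 2 * X + 1 - X = X + 1 := by omega
    rw [this]
    push_cast
    rfl
  unfold GS
  rw [← hcard, ← nsmul_one, ← Finset.sum_const]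
  apply Finset.sum_le_sum
  intro x _
  apply Real.exp_le_one_iff.2
  have : 0 ≤ 2 * Real.pi ^ 2 * ∑ l : Fin k, (∑ j, γ j * (x j : ℝ) ^ ((l : ℕ) + 1)) ^ 2 :=
    mul_nonneg (by positivity) (Finset.sum_nonneg fun _ _ => sq_nonneg _)
  linarith

theorem log_ev (C δ : ℝ) (n : ℕ) (hC : 0 < C) (hδ : 0 < δ) :
    ∀ᶠ ν : ℕ in atTop, C * Real.log ((2 : ℝ) ^ ν) ^ n ≤ ((2 : ℝ) ^ ν) ^ δ := by
  have h := (isLittleO_log_rpow_rpow_atTop (n : ℝ) hδ).def (c := 1 / C) (by positivity)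
  have ht : Tendsto (fun ν : ℕ => (2 : ℝ) ^ ν) atTop atTop :=
    tendsto_pow_atTop_atTop_of_one_lt (by norm_num : (1 : ℝ) < 2)
  filter_upwards [ht.eventually h] with ν hν
  rw [Real.rpow_natCast, Real.norm_eq_abs, Real.norm_eq_abs] at hν
  have h1 := (le_abs_self _).trans hν
  rw [abs_of_nonneg (Real.rpow_nonneg (by positivity) _)] at h1
  have h2 := mul_le_mul_of_nonneg_left h1 hC.le
  have h3 : C * (1 / C * ((2 : ℝ) ^ ν) ^ δ) = ((2 : ℝ) ^ ν) ^ δ := by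
    field_simp
  linarith

theorem kblk (h1 : S_KEY) (h2 : S_KALL) : S_KBLK := by
  intro m d s hm hd h2m h6 hds hineq h8
  obtain ⟨C1, hC1, X1, hX1⟩ := h1 m d s (4 * (m : ℝ) - 3 / 2) hm hd h2m (by omega) (by omega)
    (by linarith)
  obtain ⟨C2, hC2, X2, hX2⟩ := h2 m d s hm hd h2m h6 (by omega)
  obtain ⟨L, hL⟩ : ∃ L : ℝ, L = 2 * (d : ℝ) + 3 - 8 * m := ⟨_, rfl⟩
  obtain ⟨k, hk⟩ : ∃ k : ℝ, k = (d : ℝ) + 1 := ⟨_, rfl⟩
  obtain ⟨E, hE⟩ : ∃ E : ℝ, E = 2 * (m : ℝ) * ((s : ℝ) - (d + 1)) - (d + 1) - 1 := ⟨_, rfl⟩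
  obtain ⟨M, hM⟩ : ∃ M : ℝ, M = m * ((s : ℝ) - d + 1) := ⟨_, rfl⟩
  have hmr : (1 : ℝ) ≤ m := by exact_mod_cast hm
  have hdr : (2 : ℝ) ≤ d := by exact_mod_cast hd
  have hsr : (d : ℝ) + 1 < s := by exact_mod_cast hds
  have hL1 : 1 ≤ L := by
    have : 8 * (m : ℝ) ≤ 2 * d + 2 := by exact_mod_cast h8
    rw [hL]
    linarith
  have hL0 : 0 < L := by linarith
  have hk0 : 0 < k := by rw [hk]; linarith
  have hM0 : 0 < M := by
    rw [hM]
    apply mul_pos (by linarith)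
    linarith
  have hreal : 2 * M * k < L * E := by
    have c1 : ((s - d : ℕ) : ℝ) = (s : ℝ) - d := Nat.cast_sub (by omega)
    have c2 : ((2 * d + 3 - 8 * m : ℕ) : ℝ) = 2 * (d : ℝ) + 3 - 8 * m := by
      rw [Nat.cast_sub (by omega)]
      push_cast
      ring
    have c3 : ((s - (d + 1) : ℕ) : ℝ) = (s : ℝ) - (d + 1) := by
      rw [Nat.cast_sub (by omega)]
      push_cast
      ring
    have h3 := (Nat.cast_lt (α := ℝ)).2 hineq
    rw [Nat.cast_add, Nat.cast_mul, Nat.cast_mul, Nat.cast_mul, Nat.cast_mul, Nat.cast_mul,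
      Nat.cast_mul, Nat.cast_mul, c2, c3, Nat.cast_add (s - d), c1] at h3
    push_cast at h3
    rw [hM, hk, hE, hL]
    nlinarith
  obtain ⟨e1, he1⟩ : ∃ e1 : ℝ, e1 = 2 * M * k / L := ⟨_, rfl⟩
  have he1E : e1 < E := by
    rw [he1, div_lt_iff₀ hL0]
    linarith
  have he10 : 0 ≤ e1 := by rw [he1]; positivity
  have hMe1 : M ≤ e1 := by
    rw [he1, le_div_iff₀ hL0]
    have : L ≤ 2 * k := by rw [hL, hk]; linarith
    nlinarith
  have hE0 : 0 < E := by linarith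
  -- the constants
  obtain ⟨X0, hX0⟩ : ∃ X0 : ℕ, X0 = max (max X1 X2) 1 := ⟨_, rfl⟩
  obtain ⟨K0, hK0⟩ : ∃ K0 : ℝ, K0 = ((X0 : ℝ) + 2) ^ (2 * m * s) * (5 * Real.pi) ^ (2 * m) :=
    ⟨_, rfl⟩
  have hK00 : 0 < K0 := by rw [hK0]; positivity
  have hev : ∀ᶠ ν : ℕ in atTop, (K0 * Real.log ((2 : ℝ) ^ ν) ^ 0 ≤ ((2 : ℝ) ^ ν) ^ E ∧
      C1 * Real.log ((2 : ℝ) ^ ν) ^ m ≤ ((2 : ℝ) ^ ν) ^ (E - e1)) ∧
      C2 * Real.log ((2 : ℝ) ^ ν) ^ (2 * m) ≤ ((2 : ℝ) ^ ν) ^ (E - e1) :=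
    ((log_ev K0 E 0 hK00 hE0).and (log_ev C1 (E - e1) m hC1 (by linarith))).and
      (log_ev C2 (E - e1) (2 * m) hC2 (by linarith))
  obtain ⟨ν0, hν0⟩ := eventually_atTop.1 hev
  refine ⟨ν0, fun ν hν a ha => ?_⟩
  obtain ⟨⟨hP0', hPC1⟩, hPC2⟩ := hν0 ν hν
  obtain ⟨P, hPd⟩ : ∃ P : ℝ, P = (2 : ℝ) ^ ν := ⟨_, rfl⟩
  rw [← hPd] at hP0' hPC1 hPC2
  rw [pow_zero, mul_one] at hP0'
  have hP1 : 1 ≤ P := by
    rw [hPd]
    exact one_le_pow₀ (by norm_num)
  have hP0 : 0 < P := by linarith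
  have hPE : (2 : ℝ) ^ ((ν : ℝ) * (2 * (m : ℝ) * ((s : ℝ) - (d + 1)) - (d + 1) - 1)) = P ^ E := by
    rw [hPd, hE, Real.rpow_mul (by norm_num), Real.rpow_natCast]
  have hη : (2 : ℝ) ^ (-(((d + 1 : ℕ) : ℝ) * ν / 2)) = P ^ (-(k / 2)) := by
    rw [hPd, ← Real.rpow_natCast, ← Real.rpow_mul (by norm_num), hk]
    congr 1
    push_cast
    ring
  rw [hPE, hη]
  have hPE0 : 0 ≤ P ^ E := by positivity
  obtain ⟨X, hXd⟩ : ∃ X : ℕ, X = XB a := ⟨_, rfl⟩
  rw [← hXd]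
  have hXP : (X : ℝ) ≤ P := by
    rw [hXd, hPd]
    unfold XB
    split_ifs
    · simp
    · push_cast
      exact pow_le_pow_right₀ (by norm_num) (by omega)
  have hfin : ∀ y : ℝ, y ≤ P ^ E → ENNReal.ofReal y ≤ ENNReal.ofReal (3 * P ^ E) := fun y hy =>
    ENNReal.ofReal_le_ofReal (by linarith)
  rcases Nat.lt_or_ge X X0 with hX | hX
  · -- small `X`
    have hX2' : (X : ℝ) + 1 ≤ (X0 : ℝ) + 2 := by
      have h5 : (X : ℝ) ≤ X0 := by exact_mod_cast hX.le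
      linarith
    have hb : ∀ γ : Fin (2 * m) → ℝ,
        {γ : Fin (2 * m) → ℝ | ∀ j, P ^ (-(k / 2)) ≤ |γ j|}.indicator
          (fun γ => ENNReal.ofReal ((∏ j, qq (γ j)) * GS (2 * m) d X γ ^ s)) γ ≤
        ENNReal.ofReal (((X0 : ℝ) + 2) ^ (2 * m * s)) * ∏ j, ENNReal.ofReal (qq (γ j)) := by
      intro γ
      refine (Set.indicator_le_self _ _ _).trans ?_
      rw [← ENNReal.ofReal_prod_of_nonneg fun j _ => qq_nonneg _, ← ENNReal.ofReal_mul (by positivity)]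
      apply ENNReal.ofReal_le_ofReal
      rw [mul_comm]
      apply mul_le_mul_of_nonneg_right _ (Finset.prod_nonneg fun j _ => qq_nonneg _)
      rw [pow_mul]
      apply pow_le_pow_left₀ (GS_nonneg _ _ _ _)
      exact (GS_le _ _ _ _).trans (pow_le_pow_left₀ (by positivity) hX2' _)
    refine (lintegral_mono hb).trans ?_
    rw [lintegral_const_mul' _ _ ENNReal.ofReal_ne_top]
    refine (mul_le_mul_right (Pool.Agent.N570.KVPart.int_qq (Fin (2 * m))) _).trans ?_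
    rw [← ENNReal.ofReal_mul (by positivity), Fintype.card_fin, ← hK0]
    exact hfin _ hP0'
  · -- large `X`
    have hXX1 : X1 ≤ X := by omega
    have hXX2 : X2 ≤ X := by omega
    have hX1' : 1 ≤ X := by omega
    have hX1r : (1 : ℝ) ≤ X := by exact_mod_cast hX1'
    have hXr0 : (0 : ℝ) < X := by linarith
    have hlog0 : 0 ≤ Real.log X := Real.log_nonneg hX1r
    have hlog : Real.log X ≤ Real.log P := Real.log_le_log hXr0 hXP
    have hexp : P ^ (E - e1) * P ^ e1 = P ^ E := by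
      rw [← Real.rpow_add hP0]
      congr 1
      ring
    rcases le_or_gt ((X : ℝ) ^ L) (P ^ k) with h5 | h5
    · -- no restriction
      have hXup : (X : ℝ) ≤ P ^ (k / L) := by
        have h7 := Real.rpow_le_rpow (by positivity) h5 (by positivity : 0 ≤ 1 / L)
        rw [← Real.rpow_mul hXr0.le, ← Real.rpow_mul hP0.le, mul_one_div_cancel hL0.ne',
          Real.rpow_one, mul_one_div] at h7
        exact h7
      refine (lintegral_mono fun γ => Set.indicator_le_self _ _ γ).trans ((hX2 X hXX2).trans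
        (hfin _ ?_))
      have e2 : (X : ℝ) ^ (2 * (m : ℝ) * ((s : ℝ) - d + 1)) ≤ P ^ e1 := by
        have e3 : 2 * (m : ℝ) * ((s : ℝ) - d + 1) = 2 * M := by rw [hM]; ring
        rw [e3]
        refine (Real.rpow_le_rpow hXr0.le hXup (by positivity)).trans (le_of_eq ?_)
        rw [← Real.rpow_mul hP0.le, he1]
        congr 1
        ring
      calc C2 * Real.log X ^ (2 * m) * (X : ℝ) ^ (2 * (m : ℝ) * ((s : ℝ) - d + 1))
          ≤ C2 * Real.log P ^ (2 * m) * P ^ e1 := by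
            refine mul_le_mul ?_ e2 (by positivity) ?_
            · exact mul_le_mul_of_nonneg_left (pow_le_pow_left₀ hlog0 hlog _) hC2.le
            · have : 0 ≤ Real.log P := hlog0.trans hlog
              positivity
        _ ≤ P ^ (E - e1) * P ^ e1 := mul_le_mul_of_nonneg_right hPC2 (by positivity)
        _ = P ^ E := hexp
    · -- all coordinates are large
      have h9 : (X : ℝ) ^ (-(d : ℝ) + (4 * (m : ℝ) - 3 / 2)) ≤ P ^ (-(k / 2)) := by
        have e3 : -(d : ℝ) + (4 * (m : ℝ) - 3 / 2) = L * (-(1 / 2)) := by rw [hL]; ring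
        have e4 : -(k / 2) = k * (-(1 / 2)) := by ring
        rw [e3, e4, Real.rpow_mul hXr0.le, Real.rpow_mul hP0.le]
        exact Real.rpow_le_rpow_of_nonpos (by positivity) h5.le (by norm_num)
      have hsub : {γ : Fin (2 * m) → ℝ | ∀ j, P ^ (-(k / 2)) ≤ |γ j|} ⊆
          {γ : Fin (2 * m) → ℝ | ∀ j, (X : ℝ) ^ (-(d : ℝ) + (4 * (m : ℝ) - 3 / 2)) ≤ |γ j|} := by
        intro γ hγ j
        exact h9.trans (hγ j)
      refine (lintegral_mono fun γ => Set.indicator_le_indicator_of_subset hsub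
        (fun _ => zero_le) γ).trans ((hX1 X hXX1).trans (hfin _ ?_))
      have e2 : (X : ℝ) ^ ((m : ℝ) * ((s : ℝ) - d + 1)) ≤ P ^ e1 := by
        rw [← hM]
        refine (Real.rpow_le_rpow hXr0.le hXP hM0.le).trans ?_
        exact Real.rpow_le_rpow_of_exponent_le hP1 hMe1
      calc C1 * Real.log X ^ m * (X : ℝ) ^ ((m : ℝ) * ((s : ℝ) - d + 1))
          ≤ C1 * Real.log P ^ m * P ^ e1 := by
            refine mul_le_mul ?_ e2 (by positivity) ?_
            · exact mul_le_mul_of_nonneg_left (pow_le_pow_left₀ hlog0 hlog _) hC1.le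
            · have : 0 ≤ Real.log P := hlog0.trans hlog
              positivity
        _ ≤ P ^ (E - e1) * P ^ e1 := mul_le_mul_of_nonneg_right hPC1 (by positivity)
        _ = P ^ E := hexp

end Pool.Agent.N391.AK
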