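import Pool.Agent.N391.BTSep

set_option autoImplicit false

/-!
# BT/S1 (helper391): separation excludes real structures
-/

open Module Matrix

noncomputable section

namespace Pool.Agent.N391.BTS1

open Pool.Agent.N391.BT
open Pool.Agent.N208.BT Pool.Agent.Y102 Pool.Agent.W516.DR Pool.Agent.H204R3.GP Pool.Agent.W516.KC
  Pool.Agent.H204R3.SP Pool.Agent.TH119.MX Pool.Agent.R917 Pool.Agent.N208.AM Pool.Agent.N208.AD

theorem main : Pool.Agent.N208.BT.S_S1 := by
  rintro g A z Sg hb al hal n φ w q hq ⟨C, hC, hCr⟩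
  have hp := hb.hp al hal
  have hD : ∀ X ∈ Algebra.adjoin ℚ (der q : Set (Module.End ℚ A.H1)), X ∈ CB A :=
    cb_adjoin fun X hX => cb_of_na (hq.le (hq.der_le hX))
  have hne : al ≠ -al := by
    intro h
    exact hp.ne (by linarith)
  obtain ⟨p, X, hX, h1, h2⟩ := hb.sep _ hD (sep_cond hp hq) al (-al) (Or.inl hal)
    (Or.inr (by rwa [neg_neg])) hne
  have key : ∀ X ∈ Algebra.adjoin ℚ (der q : Set (Module.End ℚ A.H1)),
      ∃ m : M n, (∀ x, A.ext X (φ x) = φ (m *ᵥ x)) ∧ m * C = C * m.map star := by
    intro X hX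
    induction hX using Algebra.adjoin_induction with
    | mem X hX =>
      obtain ⟨m, hm⟩ := act hp.mem w (hq.le (hq.der_le hX))
      exact ⟨m, hm, hCr m ⟨A.ext X, mem_spE hX, hm⟩⟩
    | algebraMap r =>
      refine ⟨((r : ℝ) : ℂ) • (1 : M n), fun x => ?_, ?_⟩
      · rw [Algebra.algebraMap_eq_smul_one, ext_smul, ext_one', LinearMap.smul_apply,
          Module.End.one_apply, Matrix.smul_mulVec, Matrix.one_mulVec,
          ← LinearMap.map_smul φ (r : ℝ)]
        congr 1
      · have e : (((r : ℝ) : ℂ) • (1 : M n)).map star = ((r : ℝ) : ℂ) • (1 : M n) := by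
          ext i j
          by_cases hij : i = j
          · subst hij
            simp
          · simp [hij]
        rw [e, smul_mul_assoc, mul_smul_comm, one_mul, mul_one]
    | add X Y _ _ hX hY =>
      obtain ⟨m, hm, hmc⟩ := hX
      obtain ⟨m', hm', hmc'⟩ := hY
      refine ⟨m + m', fun x => ?_, ?_⟩
      · rw [ext_add, LinearMap.add_apply, hm, hm', Matrix.add_mulVec, map_add]
      · rw [add_mul, hmc, hmc', Matrix.map_add _ star_add, mul_add]
    | mul X Y _ _ hX hY =>
      obtain ⟨m, hm, hmc⟩ := hX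
      obtain ⟨m', hm', hmc'⟩ := hY
      refine ⟨m * m', fun x => ?_, ?_⟩
      · rw [ext_mul, Module.End.mul_apply, hm', hm, Matrix.mulVec_mulVec]
      · have e : (m * m').map star = m.map star * m'.map star := by
          have := Matrix.map_mul (f := starRingEnd ℂ) (L := m) (M := m')
          exact this
        rw [mul_assoc, hmc', ← mul_assoc, hmc, mul_assoc, e]
  obtain ⟨m, hm, hmc⟩ := key X hX
  have h3 := scalar w hp.ne h1 hm
  set c := Polynomial.aeval ((al : ℂ) * Complex.I) p with hc
  have e : (c • (1 : M n)).map star = (star c) • (1 : M n) := by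
    ext i j
    by_cases hij : i = j
    · subst hij
      simp
    · simp [hij]
  rw [h3, e, smul_mul_assoc, mul_smul_comm, one_mul, mul_one] at hmc
  have hC0 : C ≠ 0 := by
    rintro rfl
    rw [Matrix.det_zero] at hC
    exact not_isUnit_zero hC
  have h4 : c = star c := by
    have h5 : (c - star c) • C = 0 := by rw [sub_smul, hmc, sub_self]
    rcases smul_eq_zero.1 h5 with h6 | h6
    · exact sub_eq_zero.1 h6
    · exact absurd h6 hC0
  apply h2
  rw [← star_aeval, ← hc, ← h4]

end Pool.Agent.N391.BTS1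

end
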