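import Pool.Agent.N391.BTSep

set_option autoImplicit false

/-!
# BT/S2 (helper391): separation excludes links between two places
-/

open Module Matrix

noncomputable section

namespace Pool.Agent.N391.BTS2

open Pool.Agent.N391.BT
open Pool.Agent.N208.BT Pool.Agent.Y102 Pool.Agent.W516.DR Pool.Agent.H204R3.GP Pool.Agent.W516.KC
  Pool.Agent.H204R3.SP Pool.Agent.TH119.MX Pool.Agent.R917 Pool.Agent.N208.AM Pool.Agent.N208.AD

lemma map_star_scalar {n : ℕ} (c : ℂ) : (c • (1 : M n)).map star = (star c) • (1 : M n) := by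
  ext i j
  by_cases hij : i = j
  · subst hij
    simp
  · simp [hij]

/-- the pairs of matrices -/
lemma key {g : ℕ} {A : AbVar g} {z : Module.End ℚ A.H1} {al be : ℝ} {n n' : ℕ}
    {φ : V n →ₗ[ℝ] (Fin g → ℂ)} {φ' : V n' →ₗ[ℝ] (Fin g → ℂ)} (hz : z ∈ A.EA)
    (w : WD A z al n φ) (w' : WD A z be n' φ') {q : Submodule ℚ (Module.End ℚ A.H1)}
    (hq : A.Full q) (S : Matrix (Fin (n' + 1)) (Fin (n + 1)) ℂ) (F : M n → M n)
    (F1 : ∀ r : ℚ, F (((r : ℝ) : ℂ) • (1 : M n)) = ((r : ℝ) : ℂ) • (1 : M n))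
    (Fa : ∀ a b, F (a + b) = F a + F b) (Fm : ∀ a b, F (a * b) = F a * F b)
    (hS : ∀ p ∈ rW2 A (der q) φ φ', p.2 * S = S * F p.1) :
    ∀ X ∈ Algebra.adjoin ℚ (der q : Set (Module.End ℚ A.H1)),
      ∃ (m : M n) (m' : M n'), (∀ x, A.ext X (φ x) = φ (m *ᵥ x)) ∧
        (∀ x, A.ext X (φ' x) = φ' (m' *ᵥ x)) ∧ m' * S = S * F m := by
  intro X hX
  induction hX using Algebra.adjoin_induction with
  | mem X hX =>
    obtain ⟨m, hm⟩ := act hz w (hq.le (hq.der_le hX))
    obtain ⟨m', hm'⟩ := act hz w' (hq.le (hq.der_le hX))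
    exact ⟨m, m', hm, hm', hS (m, m') ⟨A.ext X, mem_spE hX, hm, hm'⟩⟩
  | algebraMap r =>
    refine ⟨((r : ℝ) : ℂ) • (1 : M n), ((r : ℝ) : ℂ) • (1 : M n'), fun x => ?_, fun x => ?_, ?_⟩
    · rw [Algebra.algebraMap_eq_smul_one, ext_smul, ext_one', LinearMap.smul_apply,
        Module.End.one_apply, Matrix.smul_mulVec, Matrix.one_mulVec,
        ← LinearMap.map_smul φ (r : ℝ)]
      congr 1
    · rw [Algebra.algebraMap_eq_smul_one, ext_smul, ext_one', LinearMap.smul_apply,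
        Module.End.one_apply, Matrix.smul_mulVec, Matrix.one_mulVec,
        ← LinearMap.map_smul φ' (r : ℝ)]
      congr 1
    · rw [F1, Matrix.smul_mul, Matrix.mul_smul, Matrix.one_mul, Matrix.mul_one]
  | add X Y _ _ hX hY =>
    obtain ⟨m, m', hm, hm', h⟩ := hX
    obtain ⟨k, k', hk, hk', h'⟩ := hY
    refine ⟨m + k, m' + k', fun x => ?_, fun x => ?_, ?_⟩
    · rw [ext_add, LinearMap.add_apply, hm, hk, Matrix.add_mulVec, map_add]
    · rw [ext_add, LinearMap.add_apply, hm', hk', Matrix.add_mulVec, map_add]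
    · rw [Matrix.add_mul, h, h', Fa, Matrix.mul_add]
  | mul X Y _ _ hX hY =>
    obtain ⟨m, m', hm, hm', h⟩ := hX
    obtain ⟨k, k', hk, hk', h'⟩ := hY
    refine ⟨m * k, m' * k', fun x => ?_, fun x => ?_, ?_⟩
    · rw [ext_mul, Module.End.mul_apply, hk, hm, Matrix.mulVec_mulVec]
    · rw [ext_mul, Module.End.mul_apply, hk', hm', Matrix.mulVec_mulVec]
    · rw [Matrix.mul_assoc, h', ← Matrix.mul_assoc, h, Matrix.mul_assoc, Fm]

lemma scal_eq {n n' : ℕ} {S : Matrix (Fin (n' + 1)) (Fin (n + 1)) ℂ} (hS : S ≠ 0) {c c' : ℂ}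
    (h : (c' • (1 : M n')) * S = S * (c • (1 : M n))) : c = c' := by
  rw [Matrix.smul_mul, Matrix.mul_smul, Matrix.one_mul, Matrix.mul_one] at h
  have h5 : (c - c') • S = 0 := by rw [sub_smul, h, sub_self]
  rcases smul_eq_zero.1 h5 with h6 | h6
  · exact sub_eq_zero.1 h6
  · exact absurd h6 hS

theorem main : Pool.Agent.N208.BT.S_S2 := by
  intro g A z Sg hb al hal be hbe hne n n' φ φ' w w' q hq S hS
  have hp := hb.hp al hal
  have hp' := hb.hp be hbe
  have hD : ∀ X ∈ Algebra.adjoin ℚ (der q : Set (Module.End ℚ A.H1)), X ∈ CB A :=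
    cb_adjoin fun X hX => cb_of_na (hq.le (hq.der_le hX))
  constructor
  · intro hl
    obtain ⟨p, X, hX, h1, h2⟩ := hb.sep _ hD (sep_cond hp hq) al be (Or.inl hal) (Or.inl hbe) hne
    obtain ⟨m, m', hm, hm', h⟩ := key hp.mem w w' hq S (fun m => m) (fun _ => rfl)
      (fun _ _ => rfl) (fun _ _ => rfl) hl X hX
    rw [scalar w hp.ne h1 hm, scalar w' hp'.ne h1 hm'] at h
    exact h2 (scal_eq hS h)
  · intro hl
    have hne' : -al ≠ be := by
      intro h
      apply hb.disj al hal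
      rw [h]
      exact hbe
    obtain ⟨p, X, hX, h1, h2⟩ := hb.sep _ hD (sep_cond hp hq) (-al) be
      (Or.inr (by rwa [neg_neg])) (Or.inl hbe) hne'
    obtain ⟨m, m', hm, hm', h⟩ := key hp.mem w w' hq S (fun m => m.map star)
      (fun r => by
        rw [map_star_scalar]
        congr 1
        exact Complex.conj_ofReal _)
      (fun a b => Matrix.map_add _ star_add a b)
      (fun a b => by
        have := Matrix.map_mul (f := starRingEnd ℂ) (L := a) (M := b)
        exact this) hl X hX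
    rw [scalar w hp.ne h1 hm, scalar w' hp'.ne h1 hm', map_star_scalar, star_aeval] at h
    exact h2 (scal_eq hS h)

end Pool.Agent.N391.BTS2

end
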