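import Pool.Agent.N208.BT.Stm4

set_option autoImplicit false
set_option linter.unusedSectionVars false

/-!
# BT/S1, BT/S2 (helper391): common lemmas
-/

open Module Matrix

noncomputable section

namespace Pool.Agent.N391.BT

open Pool.Agent.N208.BT Pool.Agent.Y102 Pool.Agent.W516.DR Pool.Agent.H204R3.GP Pool.Agent.W516.KC
  Pool.Agent.H204R3.SP Pool.Agent.TH119.MX Pool.Agent.R917 Pool.Agent.N208.AM Pool.Agent.N208.AD

variable {g : ℕ} {A : AbVar g}

/-! ### Generation -/

lemma cb_adjoin {S : Set (Module.End ℚ A.H1)} (hS : ∀ X ∈ S, X ∈ CB A) :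
    ∀ X ∈ Algebra.adjoin ℚ S, X ∈ CB A := by
  intro X hX
  induction hX using Algebra.adjoin_induction with
  | mem X hX => exact hS X hX
  | algebraMap r => intro P _; exact Algebra.commutes r P
  | add X Y _ _ hX hY => exact (CB A).add_mem hX hY
  | mul X Y _ _ hX hY =>
    intro P hP
    rw [mul_assoc, hY P hP, ← mul_assoc, hX P hP, mul_assoc]

lemma cb_of_na {X : Module.End ℚ A.H1} (hX : X ∈ A.NA) : X ∈ CB A := fun _ hP => A.NA_comm hX hP

lemma comm_adjoin {D : Subalgebra ℚ (Module.End ℚ A.H1)} {z : Module.End ℚ A.H1}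
    (hz : z ∈ A.EA) (hD : ∀ X ∈ D, X ∈ CB A) :
    ∀ X ∈ Algebra.adjoin ℚ ((D : Set (Module.End ℚ A.H1)) ∪ {z}), X * z = z * X := by
  intro X hX
  induction hX using Algebra.adjoin_induction with
  | mem X hX =>
    rcases hX with hX | hX
    · exact hD X hX z hz
    · rw [Set.mem_singleton_iff.1 hX]
  | algebraMap r => exact Algebra.commutes r z
  | add X Y _ _ hX hY => rw [add_mul, mul_add, hX, hY]
  | mul X Y _ _ hX hY => rw [mul_assoc, hY, ← mul_assoc, hX, mul_assoc]

lemma sep_cond {z : Module.End ℚ A.H1} {al : ℝ} (hp : HP A z al)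
    {q : Submodule ℚ (Module.End ℚ A.H1)} (hq : A.Full q) :
    ∀ X ∈ CB A, ∃ X' ∈ Algebra.adjoin ℚ
      ((Algebra.adjoin ℚ (der q : Set (Module.End ℚ A.H1)) : Set (Module.End ℚ A.H1)) ∪ {z}),
      X * z = X' * z := by
  intro X hX
  have hD : ∀ X ∈ Algebra.adjoin ℚ (der q : Set (Module.End ℚ A.H1)), X ∈ CB A :=
    cb_adjoin fun X hX => cb_of_na (hq.le (hq.der_le hX))
  have hXq : X ∈ Algebra.adjoin ℚ (q : Set (Module.End ℚ A.H1)) := by
    refine mem_adjoin_of_comm hq.semi fun P hP => ?_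
    refine hX P fun Y hY => ?_
    exact hq.comm P hP Y (A.LA_le_NA hY)
  clear hX
  induction hXq using Algebra.adjoin_induction with
  | mem X hX =>
    obtain ⟨Z, hZ, d, hd, rfl, hc⟩ := hq.dec hX
    have h1 : Z ∈ A.EA := fun Y hY =>
      hq.comm Z (fun Y hY => (hc Y hY).symm) Y (A.LA_le_NA hY)
    obtain ⟨q0, hq0⟩ := hp.gen Z h1 fun Q hQ => A.NA_comm (hq.le hZ) hQ
    refine ⟨Polynomial.aeval z q0 + d, Subalgebra.add_mem _ ?_ ?_, ?_⟩
    · exact Algebra.adjoin_mono (Set.subset_union_right)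
        (Polynomial.aeval_mem_adjoin_singleton ℚ z (p := q0))
    · exact Algebra.subset_adjoin (Or.inl (Algebra.subset_adjoin hd))
    · rw [add_mul, add_mul, hq0]
  | algebraMap r => exact ⟨algebraMap _ _ r, Subalgebra.algebraMap_mem _ r, rfl⟩
  | add X Y _ _ hX hY =>
    obtain ⟨X', hX', e1⟩ := hX
    obtain ⟨Y', hY', e2⟩ := hY
    exact ⟨X' + Y', Subalgebra.add_mem _ hX' hY', by rw [add_mul, add_mul, e1, e2]⟩
  | mul X Y _ _ hX hY =>
    obtain ⟨X', hX', e1⟩ := hX
    obtain ⟨Y', hY', e2⟩ := hY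
    refine ⟨X' * Y', Subalgebra.mul_mem _ hX' hY', ?_⟩
    have h3 := comm_adjoin hp.mem hD Y' hY'
    rw [mul_assoc, e2, h3, ← mul_assoc, e1, mul_assoc, ← h3, mul_assoc]

/-! ### The action on `W` -/

lemma ext_one' : A.ext (1 : Module.End ℚ A.H1) = 1 := by
  refine A.ext_per fun u => ?_
  rw [A.ext_apply]
  rfl

section act

variable {z : Module.End ℚ A.H1} {al : ℝ} {n : ℕ} {φ : V n →ₗ[ℝ] (Fin g → ℂ)}

lemma act (hz : z ∈ A.EA) (w : WD A z al n φ) {X : Module.End ℚ A.H1} (hX : X ∈ A.NA) :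
    ∃ m : M n, ∀ x, A.ext X (φ x) = φ (m *ᵥ x) := by
  choose f hf using w.stab X hX
  have hadd : ∀ x y, f (x + y) = f x + f y := by
    intro x y
    apply w.inj
    rw [← hf, map_add, map_add, map_add, hf, hf]
  have hsm : ∀ (c : ℝ) x, f (c • x) = c • f x := by
    intro c x
    apply w.inj
    rw [← hf, map_smul, map_smul, map_smul, hf]
  have hcom : A.ext X * A.ext z = A.ext z * A.ext X := by
    rw [← ext_mul, ← ext_mul, A.NA_comm hX hz]
  have hI : ∀ x, f (Complex.I • x) = Complex.I • f x := by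
    intro x
    apply w.inj
    rw [← hf, w.mulI, w.mulI, map_smul, ← Module.End.mul_apply, hcom, Module.End.mul_apply, hf]
  have hC : ∀ (c : ℂ) x, f (c • x) = c • f x := by
    intro c x
    have e : ∀ y : V n, c • y = c.re • y + c.im • (Complex.I • y) := by
      intro y
      ext i
      simp only [Pi.smul_apply, Pi.add_apply, smul_eq_mul, Complex.real_smul]
      rw [← mul_assoc, ← add_mul, Complex.re_add_im]
    rw [e, e, hadd, hsm, hsm, hI]
  let F : V n →ₗ[ℂ] V n := { toFun := f, map_add' := hadd, map_smul' := hC }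
  refine ⟨LinearMap.toMatrix' F, fun x => ?_⟩
  rw [LinearMap.toMatrix'_mulVec, hf]
  rfl

lemma ext_z (w : WD A z al n φ) (hal : al ≠ 0) (x : V n) :
    A.ext z (φ x) = φ (((al : ℂ) * Complex.I) • x) := by
  have h := w.mulI x
  have e : ((al : ℂ) * Complex.I) • x = al • (Complex.I • x) := by
    ext i
    simp only [Pi.smul_apply, smul_eq_mul, Complex.real_smul]
    ring
  rw [e, map_smul, h, smul_smul, mul_inv_cancel₀ hal, one_smul]

lemma ext_aeval (w : WD A z al n φ) (hal : al ≠ 0) (p : Polynomial ℚ) :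
    ∀ x : V n, A.ext (Polynomial.aeval z p) (φ x) =
      φ ((Polynomial.aeval ((al : ℂ) * Complex.I) p) • x) := by
  induction p using Polynomial.induction_on' with
  | add p q hp hq =>
    intro x
    rw [map_add, ext_add, LinearMap.add_apply, hp, hq, map_add, add_smul, map_add]
  | monomial k c =>
    intro x
    have h1 : ∀ k : ℕ, ∀ x : V n, A.ext (z ^ k) (φ x) = φ ((((al : ℂ) * Complex.I) ^ k) • x) := by
      intro k
      induction k with
      | zero =>
        intro x
        rw [pow_zero, pow_zero, one_smul, ext_one', Module.End.one_apply]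
      | succ k ih =>
        intro x
        rw [pow_succ, ext_mul, Module.End.mul_apply, ext_z w hal, ih, smul_smul, pow_succ]
    have e : (((c : ℚ) : ℂ) * ((al : ℂ) * Complex.I) ^ k) • x =
        (c : ℝ) • ((((al : ℂ) * Complex.I) ^ k) • x) := by
      ext i
      simp only [Pi.smul_apply, smul_eq_mul, Complex.real_smul]
      push_cast
      ring
    rw [Polynomial.aeval_monomial, Polynomial.aeval_monomial, ← Algebra.smul_def, ext_smul,
      LinearMap.smul_apply, h1, eq_ratCast, e, LinearMap.map_smul φ (c : ℝ)]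

/-- if `X z = p(z) z` then `X` acts on `W` by the scalar `p(i al)` -/
lemma scalar (w : WD A z al n φ) (hal : al ≠ 0) {X : Module.End ℚ A.H1} {p : Polynomial ℚ}
    (h : X * z = Polynomial.aeval z p * z) {m : M n} (hm : ∀ x, A.ext X (φ x) = φ (m *ᵥ x)) :
    m = (Polynomial.aeval ((al : ℂ) * Complex.I) p) • (1 : M n) := by
  set c := Polynomial.aeval ((al : ℂ) * Complex.I) p with hc
  have ha : ((al : ℂ) * Complex.I) ≠ 0 :=
    mul_ne_zero (Complex.ofReal_ne_zero.2 hal) Complex.I_ne_zero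
  have h1 : ∀ x : V n, m *ᵥ x = c • x := by
    intro x
    have h2 := congrArg (fun T : Module.End ℚ A.H1 => A.ext T (φ x)) h
    simp only [ext_mul, Module.End.mul_apply] at h2
    rw [ext_z w hal, hm, ext_aeval w hal, ← hc] at h2
    have h3 := w.inj h2
    rw [Matrix.mulVec_smul, smul_comm c] at h3
    exact smul_right_injective (V n) ha h3
  apply Matrix.toLin'.injective
  refine LinearMap.ext fun x => ?_
  rw [Matrix.toLin'_apply, Matrix.toLin'_apply, h1, Matrix.smul_mulVec, Matrix.one_mulVec]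

end act

lemma star_aeval (al : ℝ) (p : Polynomial ℚ) :
    star (Polynomial.aeval ((al : ℂ) * Complex.I) p) =
      Polynomial.aeval ((((-al : ℝ)) : ℂ) * Complex.I) p := by
  have h : (((-al : ℝ)) : ℂ) * Complex.I = (starRingEnd ℂ) ((al : ℂ) * Complex.I) := by
    rw [map_mul, Complex.conj_ofReal, Complex.conj_I]
    push_cast
    ring
  rw [h, Polynomial.aeval_def, Polynomial.aeval_def, Polynomial.eval₂_eq_sum_range,
    Polynomial.eval₂_eq_sum_range]
  change (starRingEnd ℂ) _ = _
  rw [map_sum]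
  refine Finset.sum_congr rfl fun i _ => ?_
  rw [map_mul, map_pow]
  congr 1
  rw [eq_ratCast]
  simp

end Pool.Agent.N391.BT

end
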