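import Pool.Agent.N502.TM.Stm

/-! # Project TM, part PCV (helper391): sequences of polarizations converge to the ball -/

set_option autoImplicit false

namespace Pool.Agent.N391.TM

open MeasureTheory Set Filter Topology
open scoped ENNReal Real InnerProductSpace
open Pool.Agent.N502.TM

/-! ## The reflection -/

theorem inner_rfl {d : ℕ} (v : V d) (hv : ‖v‖ = 1) (t : ℝ) (x : V d) :
    ⟪rfl' v t x, v⟫_ℝ = 2 * t - ⟪x, v⟫_ℝ := by
  unfold rfl'
  rw [inner_sub_left, real_inner_smul_left, real_inner_self_eq_norm_sq, hv]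
  ring

theorem rfl_rfl {d : ℕ} (v : V d) (hv : ‖v‖ = 1) (t : ℝ) (x : V d) :
    rfl' v t (rfl' v t x) = x := by
  have h := inner_rfl v hv t x
  have h1 : rfl' v t (rfl' v t x) = rfl' v t x - (2 * (⟪rfl' v t x, v⟫_ℝ - t)) • v := rfl
  rw [h1, h]
  unfold rfl'
  rw [sub_sub, ← add_smul]
  have : 2 * (⟪x, v⟫_ℝ - t) + 2 * (2 * t - ⟪x, v⟫_ℝ - t) = 0 := by ring
  rw [this, zero_smul, sub_zero]

theorem norm_rfl_sq {d : ℕ} (v : V d) (hv : ‖v‖ = 1) (t : ℝ) (x : V d) :
    ‖rfl' v t x‖ ^ 2 = ‖x‖ ^ 2 - 4 * t * (⟪x, v⟫_ℝ - t) := by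
  unfold rfl'
  rw [norm_sub_sq_real, real_inner_smul_right, norm_smul, hv, mul_one, Real.norm_eq_abs, sq_abs]
  ring

theorem rfl_neg {d : ℕ} (v : V d) (t : ℝ) (x : V d) : rfl' (-v) (-t) x = rfl' v t x := by
  unfold rfl'
  rw [inner_neg_right, smul_neg, ← neg_smul]
  congr 2
  ring

/-- one polarization -/
theorem step (hP : S_PLS) {d : ℕ} (v : V d) (hv : ‖v‖ = 1) (t : ℝ) (ht : 0 ≤ t) (A : Set (V d))
    (hA : MeasurableSet A) (r : ℝ) :
    volume (Metric.ball (0 : V d) r \ polS v t A) +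
      volume {x | x ∈ Metric.ball (0 : V d) r \ A ∧ rfl' v t x ∈ A \ Metric.ball (0 : V d) r} ≤
      volume (Metric.ball (0 : V d) r \ A) := by
  set B := Metric.ball (0 : V d) r with hB
  have hBm : MeasurableSet B := Metric.isOpen_ball.measurableSet
  have hpm := hP.meas d v t A hv hA
  have hmp := hP.mp d v t hv
  set Z : Set (V d) := {x | x ∈ B \ A ∧ rfl' v t x ∈ A \ B} with hZ
  have hZm : MeasurableSet Z :=
    (hBm.diff hA).inter (hmp.measurable (hA.diff hBm))
  have hball : ∀ x, t ≤ ⟪x, v⟫_ℝ → x ∈ B → rfl' v t x ∈ B := by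
    intro x hx hxB
    rw [hB, mem_ball_zero_iff] at hxB ⊢
    have h1 := norm_rfl_sq v hv t x
    have h2 : ‖rfl' v t x‖ ^ 2 ≤ ‖x‖ ^ 2 := by nlinarith [mul_nonneg ht (sub_nonneg.2 hx)]
    have h3 : ‖rfl' v t x‖ ≤ ‖x‖ := by
      exact abs_le_of_sq_le_sq' h2 (norm_nonneg _) |>.2
    linarith
  have hZlt : ∀ x ∈ Z, ⟪x, v⟫_ℝ < t := by
    intro x hx
    by_contra h
    exact hx.2.2 (hball x (not_lt.1 h) hx.1.1)
  -- the three parts of `B ∩ A`
  set P1 : Set (V d) := {x | x ∈ B ∩ A ∧ (⟪x, v⟫_ℝ ≤ t ∨ rfl' v t x ∈ A)} with hP1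
  set P3 : Set (V d) := {x | x ∈ B ∩ A ∧ ¬ (⟪x, v⟫_ℝ ≤ t ∨ rfl' v t x ∈ A)} with hP3
  have hQ : MeasurableSet {x : V d | ⟪x, v⟫_ℝ ≤ t ∨ rfl' v t x ∈ A} := by
    refine MeasurableSet.union ?_ (hmp.measurable hA)
    have hc : Continuous fun x : V d => ⟪x, v⟫_ℝ := by fun_prop
    exact measurableSet_le hc.measurable measurable_const
  have hP1m : MeasurableSet P1 := (hBm.inter hA).inter hQ
  have hP3m : MeasurableSet P3 := (hBm.inter hA).inter hQ.compl
  have hsplit : volume (B ∩ A) = volume P1 + volume P3 := by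
    rw [← measure_union _ hP3m]
    · congr 1
      ext x
      simp only [hP1, hP3, mem_union, Set.mem_ofPred_eq]
      tauto
    · rw [Set.disjoint_left]
      intro x h1 h2
      exact h2.2 h1.2
  set S3 : Set (V d) := rfl' v t ⁻¹' P3 with hS3
  have hS3v : volume S3 = volume P3 := hmp.measure_preimage hP3m.nullMeasurableSet
  have hS3m : MeasurableSet S3 := hmp.measurable hP3m
  have hsub : P1 ∪ (S3 ∪ Z) ⊆ B ∩ polS v t A := by
    rintro x (h | h | h)
    · refine ⟨h.1.1, ?_⟩
      by_cases hx : ⟪x, v⟫_ℝ ≤ t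
      · exact Or.inl ⟨hx, Or.inl h.1.2⟩
      · exact Or.inr ⟨not_le.1 hx, h.1.2, h.2.resolve_left hx⟩
    · -- y = rfl' x in B ∩ A, <y,v> > t, rfl' y = x ∉ A
      have h1 : rfl' v t x ∈ B ∩ A := h.1
      have h2 : ¬ (⟪rfl' v t x, v⟫_ℝ ≤ t ∨ rfl' v t (rfl' v t x) ∈ A) := h.2
      rw [rfl_rfl v hv, inner_rfl v hv] at h2
      push Not at h2
      refine ⟨?_, Or.inl ⟨by linarith [h2.1], Or.inr h1.2⟩⟩
      have h3 := hball (rfl' v t x) (by rw [inner_rfl v hv]; exact h2.1.le) h1.1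
      rwa [rfl_rfl v hv] at h3
    · exact ⟨h.1.1, Or.inl ⟨(hZlt x h).le, Or.inr h.2.1⟩⟩
  have hd1 : Disjoint P1 (S3 ∪ Z) := by
    rw [Set.disjoint_left]
    rintro x h1 (h | h)
    · have h2 : ¬ (⟪rfl' v t x, v⟫_ℝ ≤ t ∨ rfl' v t (rfl' v t x) ∈ A) := h.2
      rw [rfl_rfl v hv] at h2
      exact h2 (Or.inr h1.1.2)
    · exact h.1.2 h1.1.2
  have hd2 : Disjoint S3 Z := by
    rw [Set.disjoint_left]
    intro x h1 h2
    exact h2.2.2 h1.1.1
  have hge : volume (B ∩ A) + volume Z ≤ volume (B ∩ polS v t A) := by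
    refine le_trans (le_of_eq ?_) (measure_mono hsub)
    rw [measure_union hd1 (hS3m.union hZm), measure_union hd2 hZm, hS3v, hsplit, add_assoc]
  have e1 : volume (B ∩ polS v t A) + volume (B \ polS v t A) = volume B :=
    measure_inter_add_sdiff B hpm
  have e2 : volume (B ∩ A) + volume (B \ A) = volume B := measure_inter_add_sdiff B hA
  have hfin : volume (B ∩ A) ≠ ∞ :=
    ((measure_mono inter_subset_left).trans_lt Metric.isBounded_ball.measure_lt_top).ne
  refine (ENNReal.add_le_add_iff_left hfin).1 ?_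
  rw [e2, ← e1]
  calc volume (B ∩ A) + (volume (B \ polS v t A) + volume Z)
      = (volume (B ∩ A) + volume Z) + volume (B \ polS v t A) := by ring
    _ ≤ _ := by gcongr

/-! ## Averages over lines -/

theorem lint_smul {E : Type*} [NormedAddCommGroup E] [NormedSpace ℝ E] [MeasurableSpace E]
    [BorelSpace E] [FiniteDimensional ℝ E] (μ : Measure E) [μ.IsAddHaarMeasure]
    (F : E → ℝ≥0∞) (hF : Measurable F) (l : ℝ) (hl : 0 < l) :
    ∫⁻ z, F (l • z) ∂μ = ENNReal.ofReal (l ^ Module.finrank ℝ E)⁻¹ * ∫⁻ w, F w ∂μ := by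
  rw [← lintegral_map hF (measurable_const_smul l), Measure.map_addHaar_smul _ hl.ne',
    lintegral_smul_measure, abs_of_pos (by positivity)]
  rfl

/-- averaging over the scalings of an annulus -/
theorem polar_le {d : ℕ} (hd : 1 ≤ d) (F : V d → ℝ≥0∞) (hF : Measurable F) :
    ∫⁻ w, F w ≤ 2 * ∫⁻ z in {z : V d | 1 ≤ ‖z‖ ∧ ‖z‖ ≤ 2}, ∫⁻ l in Ioi (0 : ℝ),
      F (l • z) * ENNReal.ofReal (l ^ (d - 1)) := by
  have hne : Nonempty (Fin d) := ⟨⟨0, hd⟩⟩
  have hAm : MeasurableSet {z : V d | 1 ≤ ‖z‖ ∧ ‖z‖ ≤ 2} :=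
    (measurableSet_le measurable_const measurable_norm).inter
      (measurableSet_le measurable_norm measurable_const)
  have hG : Measurable (Function.uncurry fun (z : V d) (l : ℝ) =>
      F (l • z) * ENNReal.ofReal (l ^ (d - 1))) := by
    refine Measurable.mul (hF.comp (measurable_snd.smul measurable_fst)) ?_
    exact (measurable_snd.pow_const _).ennreal_ofReal
  rw [lintegral_lintegral_swap hG.aemeasurable]
  set K : ℝ → V d → ℝ≥0∞ := fun l w =>
    ({p : ℝ × V d | p.1 ≤ ‖p.2‖ ∧ ‖p.2‖ ≤ 2 * p.1}.indicator (fun p => F p.2) (l, w)) *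
      ENNReal.ofReal l⁻¹ with hK
  have hSm : MeasurableSet {p : ℝ × V d | p.1 ≤ ‖p.2‖ ∧ ‖p.2‖ ≤ 2 * p.1} :=
    (measurableSet_le measurable_fst measurable_snd.norm).inter
      (measurableSet_le measurable_snd.norm (measurable_fst.const_mul 2))
  have hKm : Measurable (Function.uncurry K) :=
    ((hF.comp measurable_snd).indicator hSm).mul (measurable_fst.inv.ennreal_ofReal)
  have e1 : ∫⁻ l in Ioi (0 : ℝ), ∫⁻ z in {z : V d | 1 ≤ ‖z‖ ∧ ‖z‖ ≤ 2},
      F (l • z) * ENNReal.ofReal (l ^ (d - 1)) = ∫⁻ l in Ioi (0 : ℝ), ∫⁻ w, K l w := by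
    refine setLIntegral_congr_fun measurableSet_Ioi fun l hl => ?_
    have hl' : (0 : ℝ) < l := hl
    rw [← lintegral_indicator hAm]
    set H : V d → ℝ≥0∞ := fun w =>
      ({p : ℝ × V d | p.1 ≤ ‖p.2‖ ∧ ‖p.2‖ ≤ 2 * p.1}.indicator (fun p => F p.2) (l, w)) *
      ENNReal.ofReal (l ^ (d - 1)) with hH
    have hHm : Measurable H :=
      (((hF.comp measurable_snd).indicator hSm).comp measurable_prodMk_left).mul_const _
    have e2 : (fun z : V d => {z : V d | 1 ≤ ‖z‖ ∧ ‖z‖ ≤ 2}.indicator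
        (fun z => F (l • z) * ENNReal.ofReal (l ^ (d - 1))) z) = fun z => H (l • z) := by
      funext z
      have e3 : ‖l • z‖ = l * ‖z‖ := by rw [norm_smul, Real.norm_eq_abs, abs_of_pos hl']
      by_cases hz : 1 ≤ ‖z‖ ∧ ‖z‖ ≤ 2
      · rw [Set.indicator_of_mem (show z ∈ {z : V d | 1 ≤ ‖z‖ ∧ ‖z‖ ≤ 2} from hz)]
        simp only [hH]
        rw [Set.indicator_of_mem]
        show l ≤ ‖l • z‖ ∧ ‖l • z‖ ≤ 2 * l
        rw [e3]
        constructor <;> nlinarith [hz.1, hz.2]
      · rw [Set.indicator_of_notMem (show z ∉ {z : V d | 1 ≤ ‖z‖ ∧ ‖z‖ ≤ 2} from hz)]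
        simp only [hH]
        rw [Set.indicator_of_notMem, zero_mul]
        intro h
        apply hz
        have h1 : l ≤ ‖l • z‖ ∧ ‖l • z‖ ≤ 2 * l := h
        rw [e3] at h1
        constructor
        · by_contra hc
          nlinarith [h1.1, not_le.1 hc]
        · by_contra hc
          nlinarith [h1.2, not_le.1 hc]
    rw [e2, lint_smul volume H hHm l hl', finrank_euclideanSpace, Fintype.card_fin,
      ← lintegral_const_mul _ hHm]
    refine lintegral_congr fun w => ?_
    simp only [hH, hK]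
    rw [mul_left_comm, ← ENNReal.ofReal_mul (by positivity)]
    congr 2
    obtain ⟨n, rfl⟩ : ∃ n, d = n + 1 := ⟨d - 1, by omega⟩
    rw [Nat.add_sub_cancel, pow_succ]
    field_simp
  rw [e1, lintegral_lintegral_swap hKm.aemeasurable, ← lintegral_const_mul]
  · refine lintegral_mono_ae ?_
    have h0 : ∀ᵐ w : V d, w ≠ 0 := by
      rw [ae_iff]
      simp
    filter_upwards [h0] with w hw
    have hw' : 0 < ‖w‖ := norm_pos_iff.2 hw
    have h1 : ∫⁻ l in Icc (‖w‖ / 2) ‖w‖, F w * ENNReal.ofReal ‖w‖⁻¹ ≤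
        ∫⁻ l in Ioi (0 : ℝ), K l w := by
      refine le_trans ?_ (lintegral_mono_set (s := Icc (‖w‖ / 2) ‖w‖) ?_)
      · refine setLIntegral_mono' measurableSet_Icc fun l hl => ?_
        simp only [hK]
        rw [Set.indicator_of_mem]
        · refine mul_le_mul_right (ENNReal.ofReal_le_ofReal ?_) _
          have : 0 < l := lt_of_lt_of_le (by positivity) hl.1
          exact inv_anti₀ this hl.2
        · exact ⟨hl.2, by linarith [hl.1]⟩
      · intro l hl
        exact lt_of_lt_of_le (by positivity) hl.1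
    rw [setLIntegral_const, Real.volume_Icc, mul_assoc, ← ENNReal.ofReal_mul (by positivity)] at h1
    have h2 : ‖w‖⁻¹ * (‖w‖ - ‖w‖ / 2) = 1 / 2 := by
      field_simp
      ring
    rw [h2] at h1
    calc F w = 2 * (F w * ENNReal.ofReal (1 / 2)) := by
          rw [mul_left_comm, show (2 : ℝ≥0∞) = ENNReal.ofReal 2 by simp,
            ← ENNReal.ofReal_mul (by norm_num)]
          norm_num
      _ ≤ _ := by gcongr
  · exact hKm.comp (measurable_snd.prodMk measurable_fst) |>.lintegral_prod_right'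

/-- the correlation of two sets -/
noncomputable def FF {d : ℕ} (X Y : Set (V d)) (w : V d) : ℝ≥0∞ :=
  ∫⁻ x, X.indicator 1 x * Y.indicator 1 (x + w)

theorem FF_meas {d : ℕ} (X Y : Set (V d)) (hX : MeasurableSet X) (hY : MeasurableSet Y) :
    Measurable (FF X Y) := by
  have h : Measurable (Function.uncurry fun (w x : V d) =>
      (X.indicator 1 x * Y.indicator 1 (x + w) : ℝ≥0∞)) := by
    refine Measurable.mul ((measurable_one.indicator hX).comp measurable_snd) ?_
    exact (measurable_one.indicator hY).comp (measurable_snd.add measurable_fst)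
  exact h.lintegral_prod_right

theorem FF_total {d : ℕ} (X Y : Set (V d)) (hX : MeasurableSet X) (hY : MeasurableSet Y) :
    ∫⁻ w, FF X Y w = volume X * volume Y := by
  have h : Measurable (Function.uncurry fun (w x : V d) =>
      (X.indicator 1 x * Y.indicator 1 (x + w) : ℝ≥0∞)) := by
    refine Measurable.mul ((measurable_one.indicator hX).comp measurable_snd) ?_
    exact (measurable_one.indicator hY).comp (measurable_snd.add measurable_fst)
  unfold FF
  rw [lintegral_lintegral_swap h.aemeasurable]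
  have h1 : ∀ x : V d, ∫⁻ w, (X.indicator 1 x * Y.indicator 1 (x + w) : ℝ≥0∞) =
      X.indicator 1 x * volume Y := by
    intro x
    have hm : Measurable fun w : V d => (Y.indicator 1 (x + w) : ℝ≥0∞) :=
      (measurable_one.indicator hY).comp (measurable_const_add x)
    rw [lintegral_const_mul _ hm,
      lintegral_add_left_eq_self (fun w => (Y.indicator 1 w : ℝ≥0∞)) x, lintegral_indicator_one hY]
  rw [lintegral_congr h1, lintegral_mul_const _ (measurable_one.indicator hX),
    lintegral_indicator_one hX]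

theorem FF_zero {d : ℕ} (X Y : Set (V d)) (R : ℝ) (hX : X ⊆ Metric.closedBall 0 R)
    (hY : Y ⊆ Metric.closedBall 0 R) (w : V d) (hw : 2 * R < ‖w‖) : FF X Y w = 0 := by
  unfold FF
  rw [← lintegral_zero (μ := (volume : Measure (V d)))]
  refine lintegral_congr fun x => ?_
  by_cases hx : x ∈ X
  · rw [Set.indicator_of_notMem (show x + w ∉ Y from ?_), mul_zero]
    intro hy
    have h1 := mem_closedBall_zero_iff.1 (hX hx)
    have h2 := mem_closedBall_zero_iff.1 (hY hy)
    have h3 : ‖w‖ ≤ ‖x + w‖ + ‖x‖ := by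
      calc ‖w‖ = ‖(x + w) - x‖ := by rw [add_sub_cancel_left]
        _ ≤ _ := norm_sub_le _ _
    linarith
  · rw [Set.indicator_of_notMem hx, zero_mul]

theorem line_sub (g : ℝ → ℝ≥0∞) (hg : Measurable g) (c : ℝ) :
    ∫⁻ ρ, g ρ = 2 * ∫⁻ t, g (2 * (t - c)) := by
  rw [lintegral_sub_right_eq_self (fun t => g (2 * t)) c]
  have h := lint_smul (volume : Measure ℝ) g hg 2 (by norm_num)
  simp only [smul_eq_mul, Module.finrank_self, pow_one] at h
  rw [h, ← mul_assoc]
  have : (2 : ℝ≥0∞) * ENNReal.ofReal (2 : ℝ)⁻¹ = 1 := by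
    rw [show (2 : ℝ≥0∞) = ENNReal.ofReal 2 by simp, ← ENNReal.ofReal_mul (by norm_num)]
    norm_num
  rw [this, one_mul]

theorem line_bound {d : ℕ} (X Y : Set (V d)) (hX : MeasurableSet X) (hY : MeasurableSet Y)
    (R : ℝ) (hXR : X ⊆ Metric.closedBall 0 R) (hYR : Y ⊆ Metric.closedBall 0 R) (z : ℝ≥0∞)
    (hz : ∀ (v : V d) (t : ℝ), ‖v‖ = 1 → 0 ≤ t →
      volume {x | x ∈ X ∧ rfl' v t x ∈ Y} ≤ z) (v : V d) (hv : ‖v‖ = 1) :
    ∫⁻ ρ : ℝ, FF X Y (ρ • v) ≤ 2 * (z * ENNReal.ofReal (2 * R)) := by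
  have h : Measurable (Function.uncurry fun (ρ : ℝ) (x : V d) =>
      (X.indicator 1 x * Y.indicator 1 (x + ρ • v) : ℝ≥0∞)) := by
    refine Measurable.mul ((measurable_one.indicator hX).comp measurable_snd) ?_
    exact (measurable_one.indicator hY).comp
      (measurable_snd.add (measurable_fst.smul_const v))
  have h' : Measurable (Function.uncurry fun (x : V d) (t : ℝ) =>
      (X.indicator 1 x * Y.indicator 1 (rfl' v t x) : ℝ≥0∞)) := by
    refine Measurable.mul ((measurable_one.indicator hX).comp measurable_fst) ?_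
    refine (measurable_one.indicator hY).comp ?_
    have : Continuous fun p : V d × ℝ => rfl' v p.2 p.1 := by
      unfold rfl'
      fun_prop
    exact this.measurable
  unfold FF
  rw [lintegral_lintegral_swap h.aemeasurable]
  have h1 : ∀ x : V d, ∫⁻ ρ : ℝ, (X.indicator 1 x * Y.indicator 1 (x + ρ • v) : ℝ≥0∞) =
      2 * ∫⁻ t : ℝ, (X.indicator 1 x * Y.indicator 1 (rfl' v t x) : ℝ≥0∞) := by
    intro x
    rw [line_sub (fun ρ => (X.indicator 1 x * Y.indicator 1 (x + ρ • v) : ℝ≥0∞)) ?_ ⟪x, v⟫_ℝ]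
    · congr 1
      refine lintegral_congr fun t => ?_
      have : x + (2 * (t - ⟪x, v⟫_ℝ)) • v = rfl' v t x := by
        unfold rfl'
        rw [sub_eq_add_neg x, ← neg_smul]
        congr 2
        ring
      rw [this]
    · exact h.comp measurable_prodMk_right
  rw [lintegral_congr h1, lintegral_const_mul _ h'.lintegral_prod_right,
    lintegral_lintegral_swap h'.aemeasurable]
  refine mul_le_mul_right ?_ _
  have h2 : ∀ t : ℝ, ∫⁻ x : V d, (X.indicator 1 x * Y.indicator 1 (rfl' v t x) : ℝ≥0∞) ≤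
      (Icc (-R) R).indicator (fun _ => z) t := by
    intro t
    have hfun : (fun x : V d => (X.indicator 1 x * Y.indicator 1 (rfl' v t x) : ℝ≥0∞)) =
        {x | x ∈ X ∧ rfl' v t x ∈ Y}.indicator 1 := by
      funext x
      by_cases hx : x ∈ X
      · by_cases hy : rfl' v t x ∈ Y
        · have hxy : x ∈ {x | x ∈ X ∧ rfl' v t x ∈ Y} := ⟨hx, hy⟩
          rw [Set.indicator_of_mem hx, Set.indicator_of_mem hy, Set.indicator_of_mem hxy]
          simp
        · rw [Set.indicator_of_notMem hy, mul_zero, Set.indicator_of_notMem]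
          exact fun h => hy h.2
      · rw [Set.indicator_of_notMem hx, zero_mul, Set.indicator_of_notMem]
        exact fun h => hx h.1
    have hc : Continuous fun x : V d => rfl' v t x := by
      unfold rfl'
      fun_prop
    have hm : MeasurableSet {x | x ∈ X ∧ rfl' v t x ∈ Y} := hX.inter (hc.measurable hY)
    rw [hfun, lintegral_indicator_one hm]
    by_cases ht : t ∈ Icc (-R) R
    · rw [Set.indicator_of_mem ht]
      rcases le_total 0 t with h0 | h0
      · exact hz v t hv h0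
      · have := hz (-v) (-t) (by rw [norm_neg, hv]) (by linarith)
        simpa only [rfl_neg] using this
    · rw [Set.indicator_of_notMem ht]
      have he : {x | x ∈ X ∧ rfl' v t x ∈ Y} = (∅ : Set (V d)) := by
        apply Set.eq_empty_of_forall_notMem
        rintro x ⟨hx, hy⟩
        apply ht
        have h3 := mem_closedBall_zero_iff.1 (hXR hx)
        have h4 := mem_closedBall_zero_iff.1 (hYR hy)
        have h5 := inner_rfl v hv t x
        have h6 := abs_real_inner_le_norm x v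
        have h7 := abs_real_inner_le_norm (rfl' v t x) v
        rw [hv, mul_one] at h6 h7
        have h8 := abs_le.1 (h6.trans h3)
        have h9 := abs_le.1 (h7.trans h4)
        constructor <;> linarith [h8.1, h8.2, h9.1, h9.2]
      rw [he, measure_empty]
  refine (lintegral_mono h2).trans (le_of_eq ?_)
  rw [lintegral_indicator measurableSet_Icc, setLIntegral_const, Real.volume_Icc]
  congr 2
  ring

/-- the main bound -/
theorem main_bound {d : ℕ} (hd : 1 ≤ d) (R : ℝ) : ∃ C : ℝ≥0∞, C ≠ ∞ ∧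
    ∀ X Y : Set (V d), MeasurableSet X → MeasurableSet Y → X ⊆ Metric.closedBall 0 R →
      Y ⊆ Metric.closedBall 0 R → ∀ z : ℝ≥0∞, (∀ (v : V d) (t : ℝ), ‖v‖ = 1 → 0 ≤ t →
      volume {x | x ∈ X ∧ rfl' v t x ∈ Y} ≤ z) → volume X * volume Y ≤ C * z := by
  refine ⟨2 * (2 * ENNReal.ofReal (2 * R) * ENNReal.ofReal ((2 * R) ^ (d - 1)) *
    volume {z : V d | 1 ≤ ‖z‖ ∧ ‖z‖ ≤ 2}), ?_, ?_⟩
  · have h : volume {z : V d | 1 ≤ ‖z‖ ∧ ‖z‖ ≤ 2} ≠ ∞ := by
      refine ((measure_mono (t := Metric.closedBall 0 2) ?_).trans_lt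
        Metric.isBounded_closedBall.measure_lt_top).ne
      intro z hz
      exact mem_closedBall_zero_iff.2 hz.2
    exact ENNReal.mul_ne_top (by simp) (ENNReal.mul_ne_top (ENNReal.mul_ne_top
      (ENNReal.mul_ne_top (by simp) ENNReal.ofReal_ne_top) ENNReal.ofReal_ne_top) h)
  intro X Y hX hY hXR hYR z hz
  rw [← FF_total X Y hX hY]
  refine (polar_le hd (FF X Y) (FF_meas X Y hX hY)).trans ?_
  rw [mul_assoc 2]
  refine mul_le_mul_right ?_ _
  have hAm : MeasurableSet {z : V d | 1 ≤ ‖z‖ ∧ ‖z‖ ≤ 2} :=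
    (measurableSet_le measurable_const measurable_norm).inter
      (measurableSet_le measurable_norm measurable_const)
  have key : ∀ w ∈ {z : V d | 1 ≤ ‖z‖ ∧ ‖z‖ ≤ 2}, ∫⁻ l in Ioi (0 : ℝ),
      FF X Y (l • w) * ENNReal.ofReal (l ^ (d - 1)) ≤
      2 * (z * ENNReal.ofReal (2 * R)) * ENNReal.ofReal ((2 * R) ^ (d - 1)) := by
    intro w hw
    have hw0 : 0 < ‖w‖ := lt_of_lt_of_le one_pos hw.1
    have hFm := FF_meas X Y hX hY
    have hm1 : Measurable fun l : ℝ => FF X Y (l • w) :=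
      hFm.comp (measurable_id.smul_const w)
    calc ∫⁻ l in Ioi (0 : ℝ), FF X Y (l • w) * ENNReal.ofReal (l ^ (d - 1))
        ≤ ∫⁻ l in Ioi (0 : ℝ), FF X Y (l • w) * ENNReal.ofReal ((2 * R) ^ (d - 1)) := by
          refine setLIntegral_mono' measurableSet_Ioi fun l hl => ?_
          have hl' : (0 : ℝ) < l := hl
          by_cases hlR : l ≤ 2 * R
          · gcongr
          · have : 2 * R < ‖l • w‖ := by
              rw [norm_smul, Real.norm_eq_abs, abs_of_pos hl']
              nlinarith [hw.1, not_le.1 hlR]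
            rw [FF_zero X Y R hXR hYR _ this, zero_mul, zero_mul]
      _ ≤ ∫⁻ l : ℝ, FF X Y (l • w) * ENNReal.ofReal ((2 * R) ^ (d - 1)) :=
          setLIntegral_le_lintegral _ _
      _ = (∫⁻ l : ℝ, FF X Y (l • w)) * ENNReal.ofReal ((2 * R) ^ (d - 1)) :=
          lintegral_mul_const _ hm1
      _ ≤ _ := by
          refine mul_le_mul_left ?_ _
          set v : V d := ‖w‖⁻¹ • w with hv
          have hv1 : ‖v‖ = 1 := by
            rw [hv, norm_smul, norm_inv, norm_norm, inv_mul_cancel₀ hw0.ne']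
          have e1 : (fun l : ℝ => FF X Y (l • w)) = fun l : ℝ => FF X Y ((‖w‖ • l) • v) := by
            funext l
            rw [hv, smul_smul, smul_eq_mul]
            congr 2
            field_simp
          have hm2 : Measurable fun ρ : ℝ => FF X Y (ρ • v) :=
            hFm.comp (measurable_id.smul_const v)
          rw [e1, lint_smul (volume : Measure ℝ) (fun ρ : ℝ => FF X Y (ρ • v)) hm2 ‖w‖ hw0]
          have h3 := line_bound X Y hX hY R hXR hYR z hz v hv1
          have h4 : ENNReal.ofReal (‖w‖ ^ Module.finrank ℝ ℝ)⁻¹ ≤ 1 := by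
            rw [Module.finrank_self, pow_one, ENNReal.ofReal_le_one]
            exact inv_le_one_of_one_le₀ hw.1
          calc _ ≤ 1 * ∫⁻ ρ : ℝ, FF X Y (ρ • v) := by gcongr
            _ ≤ _ := by rw [one_mul]; exact h3
  refine (setLIntegral_mono' hAm key).trans (le_of_eq ?_)
  rw [setLIntegral_const]
  ring

theorem main : S_PCV := by
  intro hP d hd E R₀ r hE hER₀ hr hvol ε hε
  -- enlarge the radius
  set R := max R₀ r with hR
  have hER : E ⊆ Metric.closedBall 0 R :=
    hER₀.trans (Metric.closedBall_subset_closedBall (le_max_left _ _))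
  have hBR : Metric.ball (0 : V d) r ⊆ Metric.closedBall 0 R :=
    Metric.ball_subset_closedBall.trans (Metric.closedBall_subset_closedBall (le_max_right _ _))
  set B := Metric.ball (0 : V d) r with hB
  have hBm : MeasurableSet B := Metric.isOpen_ball.measurableSet
  have hBfin : volume B ≠ ∞ := Metric.isBounded_ball.measure_lt_top.ne
  obtain ⟨C, hC, hCb⟩ := main_bound hd R
  -- the invariants
  have hinv : ∀ E' : Set (V d), Reach E E' → MeasurableSet E' ∧ E' ⊆ Metric.closedBall 0 R ∧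
      volume E' = volume B := by
    intro E' h
    induction h with
    | refl => exact ⟨hE, hER, hvol.symm⟩
    | tail _ h2 ih =>
      obtain ⟨v, t, hv, ht, rfl⟩ := h2
      exact ⟨hP.meas d v t _ hv ih.1, hP.bdd d v t _ R hv ht ih.2.1,
        (hP.vol d v t _ hv ih.1).trans ih.2.2⟩
  have hdiff : ∀ E' : Set (V d), Reach E E' → volume (E' \ B) = volume (B \ E') := by
    intro E' h
    obtain ⟨h1, h2, h3⟩ := hinv E' h
    have e1 : volume (B ∩ E') + volume (B \ E') = volume B := measure_inter_add_sdiff B h1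
    have e2 : volume (E' ∩ B) + volume (E' \ B) = volume E' := measure_inter_add_sdiff E' hBm
    have hfin : volume (B ∩ E') ≠ ∞ :=
      ((measure_mono inter_subset_left).trans_lt hBfin.lt_top).ne
    rw [Set.inter_comm, h3, ← e1] at e2
    exact (ENNReal.add_right_inj hfin).1 e2
  suffices hs : ∀ η : ℝ≥0∞, 0 < η → ∃ E' : Set (V d), Reach E E' ∧ volume (B \ E') < η by
    obtain ⟨E', h1, h2⟩ := hs (ε / 2) (ENNReal.half_pos hε.ne')
    refine ⟨E', h1, ?_⟩
    rw [Set.symmDiff_def]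
    refine (measure_union_le _ _).trans_lt ?_
    rw [hdiff E' h1]
    calc volume (B \ E') + volume (B \ E') < ε / 2 + ε / 2 := ENNReal.add_lt_add h2 h2
      _ = ε := ENNReal.add_halves ε
  intro η hη
  by_contra hcon
  push Not at hcon
  have hη1 : η ≠ ∞ :=
    ((hcon E Relation.ReflTransGen.refl).trans_lt
      ((measure_mono sdiff_subset).trans_lt hBfin.lt_top)).ne
  set δ : ℝ≥0∞ := η * η / (2 * (C + 1)) with hδ
  have hCp : (2 * (C + 1)) ≠ 0 := by simp
  have hCt : (2 * (C + 1)) ≠ ∞ := ENNReal.mul_ne_top (by simp) (by simp [hC])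
  have hδ0 : δ ≠ 0 := by
    rw [hδ]
    exact (ENNReal.div_pos (mul_ne_zero hη.ne' hη.ne') hCt).ne'
  have hCδ : C * δ < η * η := by
    have h1 : (2 * (C + 1)) * δ = η * η := ENNReal.mul_div_cancel hCp hCt
    have hδt : δ ≠ ∞ := by
      rw [hδ]
      exact ENNReal.div_ne_top (ENNReal.mul_ne_top hη1 hη1) hCp
    rw [← h1]
    refine (ENNReal.mul_lt_mul_iff_left hδ0 hδt).2 ?_
    calc C < C + 1 := ENNReal.lt_add_right hC one_ne_zero
      _ ≤ 2 * (C + 1) := by
        rw [two_mul]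
        exact le_self_add
  have hstep : ∀ E' : Set (V d), Reach E E' → ∃ E'' : Set (V d), Reach E E'' ∧
      volume (B \ E'') + δ ≤ volume (B \ E') := by
    intro E' h
    obtain ⟨h1, h2, h3⟩ := hinv E' h
    by_contra hc
    push Not at hc
    have hb := hCb (B \ E') (E' \ B) (hBm.diff h1) (h1.diff hBm) (sdiff_subset.trans hBR)
      (sdiff_subset.trans h2) δ (fun v t hv ht => by
        by_contra hlt
        have hlt := (not_le.1 hlt).le
        have h4 := hc (polS v t E') (Relation.ReflTransGen.tail h ⟨v, t, hv, ht, rfl⟩)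
        have h5 := step hP v hv t ht E' h1 r
        refine absurd h4 (not_lt.2 ?_)
        refine le_trans ?_ h5
        gcongr)
    rw [hdiff E' h] at hb
    have h6 := hcon E' h
    exact absurd ((mul_le_mul' h6 h6).trans hb) (not_le.2 hCδ)
  have hiter : ∀ n : ℕ, ∃ E' : Set (V d), Reach E E' ∧
      volume (B \ E') + n * δ ≤ volume (B \ E) := by
    intro n
    induction n with
    | zero => exact ⟨E, Relation.ReflTransGen.refl, by simp⟩
    | succ n ih =>
      obtain ⟨E', h1, h2⟩ := ih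
      obtain ⟨E'', h3, h4⟩ := hstep E' h1
      refine ⟨E'', h3, le_trans ?_ h2⟩
      push_cast
      calc volume (B \ E'') + (n + 1) * δ = (volume (B \ E'') + δ) + n * δ := by ring
        _ ≤ _ := by gcongr
  have hfinal : volume (B \ E) ≠ ∞ := ((measure_mono sdiff_subset).trans_lt hBfin.lt_top).ne
  obtain ⟨n, hn⟩ := ENNReal.exists_nat_mul_gt hδ0 hfinal
  obtain ⟨E', -, h2⟩ := hiter n
  exact absurd (lt_of_lt_of_le hn (le_add_self.trans h2)) (lt_irrefl _)

end Pool.Agent.N391.TM
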